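import Pool.Agent.Helper64.RF.GoalsF

/-! Packet NEE of project RF (MP_c98eff_gt, helper64). -/

open Quaternion MeasureTheory

open scoped RealInnerProductSpace

namespace Pool.Agent.Helper58.RF

open Pool.Agent.Helper64.RF

theorem norm_im_le (q : ℍ[ℝ]) : ‖Helper64.RF.im q‖ ≤ ‖q‖ := by
  have h1 := norm_sq_le_sq (Helper64.RF.im q)
  have h2 := norm_sq_eq q
  have h3 : ‖Helper64.RF.im q‖ ^ 2 ≤ ‖q‖ ^ 2 := by nlinarith [sq_nonneg q.re]
  exact le_of_sq_le_sq h3 (norm_nonneg _)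
where
  le_of_sq_le_sq {a b : ℝ} (h : a ^ 2 ≤ b ^ 2) (hb : 0 ≤ b) : a ≤ b := by
    nlinarith [abs_le_abs_of_sq h, le_abs_self a, abs_of_nonneg hb]
  abs_le_abs_of_sq {a b : ℝ} (h : a ^ 2 ≤ b ^ 2) : |a| ≤ |b| := sq_le_sq.mp h

theorem prod3 {a1 a2 a3 b1 b2 b3 L e : ℝ} (h1 : |a1| ≤ L) (h2 : |a2| ≤ L)
    (k2 : |b2| ≤ L) (k3 : |b3| ≤ L) (hL : 0 ≤ L) (he : 0 ≤ e)
    (d1 : |a1 - b1| ≤ e) (d2 : |a2 - b2| ≤ e) (d3 : |a3 - b3| ≤ e) :
    |a1 * a2 * a3 - b1 * b2 * b3| ≤ 3 * L ^ 2 * e := by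
  have e1 : a1 * a2 * a3 - b1 * b2 * b3 =
      a1 * a2 * (a3 - b3) + a1 * (a2 - b2) * b3 + (a1 - b1) * b2 * b3 := by ring
  rw [e1]
  have t1 : |a1 * a2 * (a3 - b3)| ≤ L * L * e := by
    rw [abs_mul, abs_mul]; gcongr
  have t2 : |a1 * (a2 - b2) * b3| ≤ L * e * L := by
    rw [abs_mul, abs_mul]; gcongr
  have t3 : |(a1 - b1) * b2 * b3| ≤ e * L * L := by
    rw [abs_mul, abs_mul]; gcongr
  calc _ ≤ |a1 * a2 * (a3 - b3)| + |a1 * (a2 - b2) * b3| + |(a1 - b1) * b2 * b3| :=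
        abs_add_three _ _ _
    _ ≤ _ := by nlinarith

theorem det_pert {A B : Matrix (Fin 3) (Fin 3) ℝ} {L e : ℝ} (hA : ∀ i j, |A i j| ≤ L)
    (hB : ∀ i j, |B i j| ≤ L) (hL : 0 ≤ L) (he : 0 ≤ e) (hd : ∀ i j, |A i j - B i j| ≤ e) :
    |A.det - B.det| ≤ 18 * L ^ 2 * e := by
  have key : ∀ i1 j1 i2 j2 i3 j3, |A i1 j1 * A i2 j2 * A i3 j3 - B i1 j1 * B i2 j2 * B i3 j3| ≤
      3 * L ^ 2 * e := fun i1 j1 i2 j2 i3 j3 =>
    prod3 (hA _ _) (hA _ _) (hB _ _) (hB _ _) hL he (hd _ _) (hd _ _) (hd _ _)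
  rw [Matrix.det_fin_three, Matrix.det_fin_three]
  have k1 := abs_le.mp (key 0 0 1 1 2 2)
  have k2 := abs_le.mp (key 0 0 1 2 2 1)
  have k3 := abs_le.mp (key 0 1 1 0 2 2)
  have k4 := abs_le.mp (key 0 1 1 2 2 0)
  have k5 := abs_le.mp (key 0 2 1 0 2 1)
  have k6 := abs_le.mp (key 0 2 1 1 2 0)
  rw [abs_le]
  constructor <;> linarith [k1.1, k1.2, k2.1, k2.2, k3.1, k3.2, k4.1, k4.2, k5.1, k5.2, k6.1, k6.2]

/-- `det(A)² = p0² det G`. -/
theorem gram_det (A G : Matrix (Fin 3) (Fin 3) ℝ) (r p : Fin 3 → ℝ) (p0 : ℝ) (hp0 : p0 ≠ 0)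
    (hp : p0 ^ 2 + (p 0 ^ 2 + p 1 ^ 2 + p 2 ^ 2) = 1)
    (hr : ∀ j, p0 * r j + (p 0 * A 0 j + p 1 * A 1 j + p 2 * A 2 j) = 0)
    (hG : ∀ j k, G j k = r j * r k + (A 0 j * A 0 k + A 1 j * A 1 k + A 2 j * A 2 k)) :
    A.det ^ 2 = p0 ^ 2 * G.det := by
  set S : Matrix (Fin 3) (Fin 3) ℝ := Matrix.of fun i j => p i * p j + (if i = j then p0 ^ 2 else 0)
    with hS
  have e1 : (p0 ^ 2) • G = A.transpose * S * A := by
    ext j k
    have hj := hr j
    have hk := hr k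
    have e : p0 ^ 2 * G j k =
        (p 0 * A 0 j + p 1 * A 1 j + p 2 * A 2 j) * (p 0 * A 0 k + p 1 * A 1 k + p 2 * A 2 k) +
        p0 ^ 2 * (A 0 j * A 0 k + A 1 j * A 1 k + A 2 j * A 2 k) := by
      have h1 : p 0 * A 0 j + p 1 * A 1 j + p 2 * A 2 j = -(p0 * r j) := by linarith
      have h2 : p 0 * A 0 k + p 1 * A 1 k + p 2 * A 2 k = -(p0 * r k) := by linarith
      rw [hG, h1, h2]; ring
    rw [Matrix.smul_apply, smul_eq_mul, e]
    simp only [Matrix.mul_apply, Fin.sum_univ_three, Matrix.transpose_apply, hS, Matrix.of_apply]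
    simp
    ring
  have e2 : S.det = p0 ^ 4 * (p0 ^ 2 + (p 0 ^ 2 + p 1 ^ 2 + p 2 ^ 2)) := by
    rw [Matrix.det_fin_three]
    simp only [hS, Matrix.of_apply]
    simp
    ring
  have e3 : (p0 ^ 2) ^ 3 * G.det = A.det * S.det * A.det := by
    have := congrArg Matrix.det e1
    rw [Matrix.det_smul, Matrix.det_mul, Matrix.det_mul, Matrix.det_transpose] at this
    simpa using this
  rw [e2, hp] at e3
  have hp4 : p0 ^ 4 ≠ 0 := pow_ne_zero 4 hp0
  have : p0 ^ 4 * (A.det ^ 2) = p0 ^ 4 * (p0 ^ 2 * G.det) := by linear_combination (-1 : ℝ) * e3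
  exact mul_left_cancel₀ hp4 this

/-- `Jc ξ` as a linear map. -/
noncomputable def JcL (ξ : W) : W →ₗ[ℝ] W where
  toFun := Jc ξ
  map_add' a b := by
    unfold Jc
    rw [iot_add, ← im_add, ← mul_add]
    congr 2
    noncomm_ring
  map_smul' r a := by
    unfold Jc
    rw [iot_smul, RingHom.id_apply, ← im_smul]
    congr 1
    rw [smul_mul_assoc, mul_smul_comm, ← smul_add, mul_smul_comm]

theorem JcL_apply (ξ a : W) : JcL ξ a = Jc ξ a := rfl

theorem sq_le_of_mem {ξ : W} (h : ξ ∈ Set.Icc (fun _ => -(1/2) : W) (fun _ => 1/2)) :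
    Helper64.RF.sq ξ ≤ 3 / 4 := by
  have h0 : ∀ i, ξ i ^ 2 ≤ 1 / 4 := by
    intro i
    have a := h.1 i
    have b := h.2 i
    simp only at a b
    nlinarith
  unfold Helper64.RF.sq
  linarith [h0 0, h0 1, h0 2]

theorem norm_single_le (j : Fin 3) : ‖(Pi.single j (1:ℝ) : W)‖ ≤ 1 := by
  rw [Pi.norm_single]
  simp

theorem inner_mul_unit (y : ℍ[ℝ]) (hy : ‖y‖ = 1) (a b : ℍ[ℝ]) :
    ⟪star y * a, star y * b⟫ = ⟪a, b⟫ := by
  have h1 : y * star y = 1 := by
    rw [Quaternion.self_mul_star]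
    have : Quaternion.normSq y = 1 := by
      rw [Quaternion.normSq_eq_norm_mul_self, hy]; norm_num
    rw [this]; simp
  rw [Quaternion.inner_def, Quaternion.inner_def]
  have : star y * a * star (star y * b) = star y * (a * star b) * y := by
    rw [star_mul, star_star]
    noncomm_ring
  rw [this]
  have h2 : ∀ q : ℍ[ℝ], (star y * q * y).re = q.re := by
    intro q
    have h3 : (star y * q * y).re = (y * (star y * q)).re := by
      simp only [Quaternion.re_mul]; ring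
    rw [h3, ← mul_assoc, h1, one_mul]
  exact h2 _

theorem inner_eq (a b : ℍ[ℝ]) : ⟪a, b⟫ =
    a.re * b.re + (Helper64.RF.im a 0 * Helper64.RF.im b 0 + Helper64.RF.im a 1 * Helper64.RF.im b 1 + Helper64.RF.im a 2 * Helper64.RF.im b 2) := by
  rw [Quaternion.inner_def]
  simp [Quaternion.re_mul, Helper64.RF.im]
  ring

/-- Pointwise bound: the derivative of the almost developing map. -/
theorem Y_bound {g : ℍ[ℝ] → W →L[ℝ] W →L[ℝ] ℝ} {ε : ℝ} {Φ : W → ℍ[ℝ]}
    {Y : W → W →L[ℝ] ℍ[ℝ]} (cay : CAY) {C0 : ℝ} (hC : 0 < C0)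
    (hg : ∀ x, x ≠ 0 → ∀ v, g x v v ≤ C0 * Helper64.RF.sq v)
    (hD : Dev g 1 ε Φ Y) (ξ a : W) : ‖Y ξ (Jc ξ a)‖ ≤ 4 * Real.sqrt C0 * ‖a‖ := by
  have h1 : ‖Y ξ (Jc ξ a)‖ ^ 2 = g (X ξ) (Jc ξ a) (Jc ξ a) := by
    rw [← hD.gram, real_inner_self_eq_norm_sq]
  have h2 := hg (X ξ) (cay.1 ξ) (Jc ξ a)
  have h3 := cay.2.2.2.1 ξ a
  have h4 := sq_le_norm_sq a
  have hn : 1 ≤ nn ξ := by
    unfold nn; linarith [sq_nonneg' ξ]
  have h5 : 4 / nn ξ ^ 2 ≤ 4 := by
    rw [div_le_iff₀ (by positivity)]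
    nlinarith
  have h6 : Helper64.RF.sq (Jc ξ a) ≤ 4 * (3 * ‖a‖ ^ 2) := by
    rw [h3]
    have h7 := sq_nonneg' a
    calc _ ≤ 4 * Helper64.RF.sq a := by gcongr
      _ ≤ _ := by linarith
  have h8 : ‖Y ξ (Jc ξ a)‖ ^ 2 ≤ (4 * Real.sqrt C0 * ‖a‖) ^ 2 := by
    rw [h1]
    have h9 : Real.sqrt C0 ^ 2 = C0 := Real.sq_sqrt hC.le
    calc _ ≤ C0 * Helper64.RF.sq (Jc ξ a) := h2
      _ ≤ C0 * (4 * (3 * ‖a‖ ^ 2)) := by gcongr
      _ ≤ 16 * C0 * ‖a‖ ^ 2 := by nlinarith [mul_nonneg hC.le (_root_.sq_nonneg ‖a‖)]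
      _ = 16 * Real.sqrt C0 ^ 2 * ‖a‖ ^ 2 := by rw [h9]
      _ = _ := by ring
  exact (sq_le_sq₀ (norm_nonneg _) (by positivity)).mp h8

theorem nee (cay : CAY) (ne1 : NE1) (dge : DGE) : NEE := by
  intro c0 C0 hc0 hC0
  set s : ℝ := Real.sqrt (c0 ^ 3) with hs
  have hs0 : 0 < s := Real.sqrt_pos.mpr (by positivity)
  set L : ℝ := 4 * Real.sqrt C0 + 1 with hL
  have hL0 : 0 < L := by positivity
  obtain ⟨δ1, hδ1, H1⟩ := ne1 L (s / 4) hL0 (by positivity)
  refine ⟨min δ1 (1 / 2), min 1 (s / (72 * L ^ 2)), by positivity, by positivity, ?_⟩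
  intro g ε Φ Y hM hg hε0 hε hD y0 hy0
  by_contra hcon
  push Not at hcon
  have hε1 : ε ≤ 1 := le_trans hε (min_le_left _ _)
  have hε2 : 18 * L ^ 2 * ε ≤ s / 4 := by
    have := le_trans hε (min_le_right _ _)
    rw [le_div_iff₀ (by positivity)] at this
    linarith
  -- the map
  set Lm : ℍ[ℝ] →L[ℝ] ℍ[ℝ] := ContinuousLinearMap.mul ℝ ℍ[ℝ] (star y0) with hLm
  have hLm_apply : ∀ q, Lm q = star y0 * q := fun q => rfl
  have hLm_norm : ∀ q, ‖Lm q‖ = ‖q‖ := by
    intro q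
    rw [hLm_apply, norm_mul, norm_star, hy0, one_mul]
  set φ : W → W := fun ξ => imL (Lm (Φ ξ)) with hφ
  have hφs : ContDiff ℝ (⊤ : ℕ∞) φ := imL.contDiff.comp (Lm.contDiff.comp hD.smooth)
  have hΦd : ∀ ξ, DifferentiableAt ℝ Φ ξ := fun ξ =>
    (hD.smooth.contDiffAt).differentiableAt (by simp)
  have hφd : ∀ ξ, fderiv ℝ φ ξ = (imL.comp Lm).comp (fderiv ℝ Φ ξ) := by
    intro ξ
    exact ((imL.comp Lm).hasFDerivAt.comp ξ (hΦd ξ).hasFDerivAt).fderiv
  -- bound of the distance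
  have hclose : ∀ ξ ∈ Set.Icc (fun _ => -(1/2) : W) (fun _ => 1/2), ‖Φ ξ - y0‖ ≤ min δ1 (1 / 2) := by
    intro ξ hξ
    exact hcon ξ (by linarith [sq_le_of_mem hξ])
  have hp1 : ∀ ξ, ‖Lm (Φ ξ) - 1‖ = ‖Φ ξ - y0‖ := by
    intro ξ
    have h1 : star y0 * y0 = 1 := by
      rw [Quaternion.star_mul_self]
      have : Quaternion.normSq y0 = 1 := by
        rw [Quaternion.normSq_eq_norm_mul_self, hy0]; norm_num
      rw [this]; simp
    have h2 : Lm (Φ ξ) - 1 = Lm (Φ ξ - y0) := by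
      rw [hLm_apply, hLm_apply, mul_sub, h1]
    rw [h2, hLm_norm]
  obtain ⟨ξ, hξ, hbig⟩ := H1 φ hφs (by
    intro ξ hξ
    have hsq := sq_le_of_mem hξ
    have hder := hD.der ξ (by linarith)
    have hYb := Y_bound cay hC0 (fun x hx v => (hg x hx v).2) hD ξ
    have hder2 : ∀ a, ‖fderiv ℝ Φ ξ a‖ ≤ L * ‖a‖ := by
      intro a
      have h1 := hder a
      have h2 := hYb a
      have h3 : ‖fderiv ℝ Φ ξ a‖ ≤ ‖fderiv ℝ Φ ξ a - Y ξ (Jc ξ a)‖ + ‖Y ξ (Jc ξ a)‖ := by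
        have := norm_add_le (fderiv ℝ Φ ξ a - Y ξ (Jc ξ a)) (Y ξ (Jc ξ a))
        rwa [sub_add_cancel] at this
      have h4 : ε * ‖a‖ ≤ 1 * ‖a‖ := by gcongr
      rw [hL]; nlinarith
    constructor
    · refine ContinuousLinearMap.opNorm_le_bound _ hL0.le ?_
      intro a
      rw [hφd]
      calc ‖imL (Lm (fderiv ℝ Φ ξ a))‖ ≤ ‖Lm (fderiv ℝ Φ ξ a)‖ := norm_im_le _
        _ = ‖fderiv ℝ Φ ξ a‖ := hLm_norm _
        _ ≤ _ := hder2 a
    · -- determinants
      set e : Fin 3 → W := fun j => Pi.single j (1:ℝ) with he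
      have hen : ∀ j, ‖e j‖ ≤ 1 := norm_single_le
      set N : Fin 3 → ℍ[ℝ] := fun j => Lm (Y ξ (Jc ξ (e j))) with hN
      set A : Matrix (Fin 3) (Fin 3) ℝ := Matrix.of fun i j => Helper64.RF.im (N j) i with hA
      set B : Matrix (Fin 3) (Fin 3) ℝ :=
        Matrix.of fun i j => Helper64.RF.im (Lm (fderiv ℝ Φ ξ (e j))) i with hB
      have hdetB : (fderiv ℝ φ ξ).det = B.det := by
        rw [ContinuousLinearMap.det, ← LinearMap.det_toMatrix']
        congr 1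
        ext i j
        rw [LinearMap.toMatrix'_apply, hφd]
        simp only [hB, Matrix.of_apply, he]
        have : (fun j' => if j' = j then (1:ℝ) else 0) = Pi.single j (1:ℝ) := by
          ext j'
          by_cases h : j' = j
          · subst h; simp
          · simp [h]
        simp only [ContinuousLinearMap.coe_coe, ContinuousLinearMap.comp_apply, imL_apply]
      have hAL : ∀ i j, |A i j| ≤ L := by
        intro i j
        calc |A i j| ≤ ‖Helper64.RF.im (N j)‖ := norm_le_pi_norm (Helper64.RF.im (N j)) i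
          _ ≤ ‖N j‖ := norm_im_le _
          _ = ‖Y ξ (Jc ξ (e j))‖ := hLm_norm _
          _ ≤ 4 * Real.sqrt C0 * ‖e j‖ := hYb _
          _ ≤ 4 * Real.sqrt C0 * 1 := by gcongr; exact hen j
          _ ≤ L := by rw [hL]; linarith
      have hBL : ∀ i j, |B i j| ≤ L := by
        intro i j
        calc |B i j| ≤ ‖Helper64.RF.im (Lm (fderiv ℝ Φ ξ (e j)))‖ :=
              norm_le_pi_norm (Helper64.RF.im (Lm (fderiv ℝ Φ ξ (e j)))) i
          _ ≤ ‖Lm (fderiv ℝ Φ ξ (e j))‖ := norm_im_le _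
          _ = ‖fderiv ℝ Φ ξ (e j)‖ := hLm_norm _
          _ ≤ L * ‖e j‖ := hder2 _
          _ ≤ L * 1 := by gcongr; exact hen j
          _ = L := mul_one L
      have hAB : ∀ i j, |A i j - B i j| ≤ ε := by
        intro i j
        have h1 : A i j - B i j =
            -(Helper64.RF.im (Lm (fderiv ℝ Φ ξ (e j) - Y ξ (Jc ξ (e j)))) i) := by
          simp only [hA, hB, Matrix.of_apply, hN, map_sub, im_sub, Pi.sub_apply]
          ring
        rw [h1, abs_neg]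
        calc _ ≤ ‖Helper64.RF.im (Lm (fderiv ℝ Φ ξ (e j) - Y ξ (Jc ξ (e j))))‖ :=
              norm_le_pi_norm (Helper64.RF.im (Lm (fderiv ℝ Φ ξ (e j) - Y ξ (Jc ξ (e j))))) i
          _ ≤ ‖Lm (fderiv ℝ Φ ξ (e j) - Y ξ (Jc ξ (e j)))‖ := norm_im_le _
          _ = ‖fderiv ℝ Φ ξ (e j) - Y ξ (Jc ξ (e j))‖ := hLm_norm _
          _ ≤ ε * ‖e j‖ := hder _
          _ ≤ ε * 1 := by gcongr; exact hen j
          _ = ε := mul_one ε
      have hpert := det_pert hAL hBL hL0.le hε0 hAB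
      -- Gram matrix
      set G : Matrix (Fin 3) (Fin 3) ℝ := Matrix.of fun j k => ⟪N j, N k⟫ with hG
      have hGg : ∀ j k, G j k = g (X ξ) (Jc ξ (e j)) (Jc ξ (e k)) := by
        intro j k
        simp only [hG, Matrix.of_apply, hN, hLm_apply]
        rw [inner_mul_unit y0 hy0, hD.gram]
      have hGdet : c0 ^ 3 ≤ G.det := by
        apply dge c0 G hc0
        · intro i j
          rw [hGg, hGg, hM.symm]
        · intro v
          have hJv : Jc ξ v = ∑ j, v j • Jc ξ (e j) := by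
            have h1 : v = ∑ j, v j • e j := by
              ext i
              simp [he, Finset.sum_apply, Pi.single_apply]
            have h2 : JcL ξ v = ∑ j, v j • JcL ξ (e j) := by
              conv_lhs => rw [h1]
              rw [map_sum]
              simp only [map_smul]
            exact h2
          have h3 : ∑ i, ∑ j, G i j * v i * v j = g (X ξ) (Jc ξ v) (Jc ξ v) := by
            rw [hJv]
            simp only [hGg, Fin.sum_univ_three]
            simp only [map_add, map_smul, FunLike.coe_add, FunLike.coe_smul, Pi.add_apply,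
              Pi.smul_apply, smul_eq_mul]
            ring
          rw [h3]
          have h4 := (hg (X ξ) (cay.1 ξ) (Jc ξ v)).1
          have h5 := cay.2.2.2.1 ξ v
          have hn : 1 ≤ nn ξ := by
            unfold nn; linarith [sq_nonneg' ξ]
          have hn2 : nn ξ ≤ 7 / 4 := by unfold nn; linarith
          have h6 : 1 ≤ 4 / nn ξ ^ 2 := by
            rw [le_div_iff₀ (by positivity)]
            nlinarith
          have h7 : Helper64.RF.sq v ≤ Helper64.RF.sq (Jc ξ v) := by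
            rw [h5]
            nlinarith [sq_nonneg' v]
          calc _ = c0 * Helper64.RF.sq v := rfl
            _ ≤ c0 * Helper64.RF.sq (Jc ξ v) := by gcongr
            _ ≤ _ := h4
      -- the quaternion p
      set p := Lm (Φ ξ) with hp
      have hpn : ‖p‖ = 1 := by rw [hp, hLm_norm, hD.norm]
      have hpc : ‖p - 1‖ ≤ 1 / 2 := by
        rw [hp1]; exact le_trans (hclose ξ hξ) (min_le_right _ _)
      have hpre : 1 / 2 ≤ p.re := by
        have h1 := norm_sq_eq (p - 1)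
        have h2 : (p - 1).re = p.re - 1 := by simp
        have h3 := sq_nonneg' (Helper64.RF.im (p - 1))
        rw [h2] at h1
        have h4 : (p.re - 1) ^ 2 ≤ (1 / 2) ^ 2 := by
          have : ‖p - 1‖ ^ 2 ≤ (1 / 2) ^ 2 := by
            have := norm_nonneg (p - 1)
            gcongr
          linarith
        have := abs_le_of_sq_le_sq' h4 (by norm_num)
        linarith [this.1]
      have hgd := gram_det A G (fun j => (N j).re) (Helper64.RF.im p) p.re (by linarith) (by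
          have := norm_sq_eq p
          rw [hpn] at this
          unfold Helper64.RF.sq at this
          linarith) (by
          intro j
          have h1 : ⟪p, N j⟫ = 0 := by
            simp only [hp, hN, hLm_apply]
            rw [inner_mul_unit y0 hy0, hD.orth]
          rw [inner_eq] at h1
          simpa only [hA, Matrix.of_apply] using h1) (by
          intro j k
          simp only [hG, hA, Matrix.of_apply]
          rw [inner_eq])
      have hAdet : s / 2 ≤ |A.det| := by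
        have h1 : (s / 2) ^ 2 ≤ A.det ^ 2 := by
          rw [hgd, div_pow, hs, Real.sq_sqrt (by positivity)]
          have h2 : (1 / 2 : ℝ) ^ 2 ≤ p.re ^ 2 := by gcongr
          have h3 : 0 < c0 ^ 3 := by positivity
          nlinarith
        exact abs_le_abs_of_nonneg' h1 (by positivity)
      rw [hdetB]
      have h1 : |A.det| ≤ |A.det - B.det| + |B.det| := by
        have := abs_add_le (A.det - B.det) B.det
        rwa [sub_add_cancel] at this
      linarith)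
  have h1 : ‖φ ξ‖ ≤ ‖Φ ξ - y0‖ := by
    rw [← hp1]
    have h2 : φ ξ = Helper64.RF.im (Lm (Φ ξ) - 1) := by
      have h3 : Helper64.RF.im (1 : ℍ[ℝ]) = 0 := by
        funext i
        fin_cases i <;> simp [Helper64.RF.im]
      rw [Helper64.RF.im_sub, h3, sub_zero]; rfl
    rw [h2]
    exact norm_im_le _
  have h2 := hclose ξ hξ
  have h3 : min δ1 (1 / 2) ≤ δ1 := min_le_left _ _
  linarith
where
  abs_le_abs_of_nonneg' {a b : ℝ} (h : a ^ 2 ≤ b ^ 2) (ha : 0 ≤ a) : a ≤ |b| := by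
    have := sq_le_sq.mp h
    rwa [abs_of_nonneg ha] at this

end Pool.Agent.Helper58.RF
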